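import Pool.Agent.T6.H97.CS.Final

/-!
# Nested compression spaces are irreducible components

MP_f9dfcb_ag, Q1, in full. Let `K` be an algebraically closed field (of any characteristic), let
`1 ≤ r ≤ n`, `0 ≤ s ≤ ⌊(r - 1) / 2⌋` and `1 ≤ k ≤ κ(s)`. Then the set `C_k(s)` of the nested
`s`-compression spaces of projective dimension `k` is an irreducible component of the Fano scheme
`F_k(SD^r_n)` of the `k`-planes in the variety of the symmetric `n × n` matrices of rank `< r`.

The definitions (`Pool.Agent.T6.H97.CS.Defs`):

* `Fano K n r k` is the set of the (closed) points of the Fano scheme: the linear subspaces `Q` of
  dimension `k + 1` of the space of the `n × n` matrices, all of whose elements are symmetric and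
  have rank `< r`. Its topology is the Zariski topology: `Frame K n r k` is the set of the bases
  `(M_0, ..., M_k)` of such subspaces, with the Zariski topology (generated by the sets where a
  polynomial in the entries does not vanish), and `Fano K n r k` has the quotient topology for the
  map which sends a basis to its span (the Grassmannian as the quotient of the Stiefel variety).
* `InL r s M`: the entry `M i j` vanishes whenever (`i ≥ r - s` and `j ≥ s + 1`) or (`i ≥ s + 1`
  and `j ≥ r - s`), for the indices `1, ..., n`.
* `Comp K n r k s` is `C_k(s)`: the points `Q` such that, for some invertible `B`, all the
  `B * M * Bᵀ`, `M` in `Q`, satisfy `InL r s`.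
* `kap n r s` is `κ(s)`.

`irreducibleComponents` is Mathlib's: the maximal irreducible closed subsets.

## The proof

For each `s` and `k` a special basis `M⁰` of a compression space is given, such that, over every
algebraically closed extension `Ω` of `K` with a valuation trivial on `K`, every linear system of
symmetric matrices of rank `< r` which reduces to `M⁰` is a compression space (`StmLOC`). The
generic point of an irreducible set through the special point is such a system, for a valuation
ring centered at the special point, and compression spaces specialise to compression spaces.
The first two elements of `M⁰` form a pencil whose kernel bundle has the type `(s, ..., s)`; after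
the addition of rows and columns (`plus`) its generic kernel has dimension one, spanned by a
vector polynomial `u` of the degree `s`; all deformations of the pencil have the same property,
and the other elements of `M⁰` are chosen so that `(u(t) + ...)ᵀ M (u(t) + ...)` forces the
deformed system to map the coefficients of `u` to the space of the dimension `s` spanned by the
values of the pencil.
-/

set_option autoImplicit false

universe u

namespace Pool.Agent.Results.MP_f9dfcb_ag.NestedCompressionComponents

open Pool.Agent.T6.H97.CS

/-- **The nested compression spaces are irreducible components of the Fano scheme.** -/
theorem result (K : Type u) [Field K] [IsAlgClosed K] (n r k s : ℕ) (hr : 1 ≤ r) (hrn : r ≤ n)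
    (hs : s ≤ (r - 1) / 2) (hk : 1 ≤ k) (hks : k ≤ kap n r s) :
    Comp K n r k s ∈ irreducibleComponents (Fano K n r k) :=
  final K n r k s hr hrn hs hk hks

end Pool.Agent.Results.MP_f9dfcb_ag.NestedCompressionComponents
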